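import Pool.Agent.Helper85_CYD.StG
import Pool.Agent.Helper85_CYD.St1

/-! # CYD, module BND: the counting argument at one prime -/

set_option autoImplicit false

open Polynomial IsLocalRing

namespace Pool.Agent.CYD

namespace H64

section

variable {L : Type} [Field L]

/-- The Wronskian. -/
noncomputable def Wr (j : ℕ) (G H : L[X]) : L[X] :=
  C (j : L) * G * H + H * (X * derivative G) - G * (X * derivative H)

theorem natDegree_X_der_le (G : L[X]) (d : ℕ) (h : G.natDegree ≤ d) :
    (X * derivative G).natDegree ≤ d := by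
  rw [natDegree_le_iff_coeff_eq_zero]
  intro m hm
  obtain ⟨k, rfl⟩ : ∃ k, m = k + 1 := ⟨m - 1, by omega⟩
  rw [coeff_X_mul, coeff_derivative, coeff_eq_zero_of_natDegree_lt (by omega), zero_mul]

theorem natDegree_Wr_le (j : ℕ) (G H : L[X]) (d : ℕ) (hG : G.natDegree ≤ d)
    (hH : H.natDegree ≤ d) : (Wr j G H).natDegree ≤ 2 * d := by
  unfold Wr
  refine (natDegree_sub_le _ _).trans (max_le ((natDegree_add_le _ _).trans (max_le ?_ ?_)) ?_)
  · have h1 : (C (j : L) * G).natDegree ≤ d := (natDegree_C_mul_le _ _).trans hG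
    have h2 := natDegree_mul_le_of_le h1 hH
    omega
  · have h2 := natDegree_mul_le_of_le hH (natDegree_X_der_le G d hG)
    omega
  · have h2 := natDegree_mul_le_of_le hG (natDegree_X_der_le H d hH)
    omega

theorem Wr_coeff_zero (j : ℕ) (G H : L[X]) :
    (Wr j G H).coeff 0 = (j : L) * G.coeff 0 * H.coeff 0 := by
  unfold Wr
  rw [coeff_sub, coeff_add, mul_coeff_zero, mul_coeff_zero, mul_coeff_zero, mul_coeff_zero,
    mul_coeff_zero, mul_coeff_zero, coeff_C_zero, coeff_X_zero]
  ring

theorem sum_le_of_dvd (t : Finset L) (e : L → ℕ) (F : L[X]) (hF : F ≠ 0)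
    (h : ∀ b ∈ t, (X - C b) ^ e b ∣ F) : ∑ b ∈ t, e b ≤ F.natDegree := by
  classical
  have h1 : ∏ b ∈ t, (X - C b) ^ e b ∣ F := by
    apply Finset.prod_dvd_of_coprime
    · intro a _ b _ hab
      exact (isCoprime_X_sub_C_of_isUnit_sub (sub_ne_zero.mpr hab).isUnit).pow
    · exact h
  have h2 := natDegree_le_of_dvd h1 hF
  rw [natDegree_prod_of_monic] at h2
  · simpa [natDegree_pow] using h2
  · intro b _
    exact (monic_X_sub_C b).pow _

end

section

variable {n p q : ℕ} {g h : ℤ[X]}

theorem red_natDegree_le (L : Type) [CommRing L] (f : ℤ[X]) : (red L f).natDegree ≤ f.natDegree :=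
  natDegree_map_le

/-- One factor. -/
theorem one_factor (hW : WmuStmt) (hB : BasStmt) (F : Fac n p q g h) (hpq : ¬ p ∣ q - 1)
    (L : Type) [Field L] [CharP L p] (a : L) (ha : IsPrimitiveRoot a q) (ε : ℤ)
    (hε : ε = 1 ∨ ε = -1) (j : ℕ)
    (hd : cyclotomic n ℤ ∣ X ^ j * g - C ε * g.reverse) :
    p ∣ j ∨ ∑ b ∈ primitiveRoots q L, rootMultiplicity b (red L g) + (p - 2) * (q - 1) ≤
      2 * g.natDegree := by
  classical
  have hpf : Fact p.Prime := ⟨F.hp⟩
  obtain ⟨hg0, hlc2, hlc, hdeg⟩ := hB n g h F.toFg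
  set G := red L g with hG
  set H := red L g.reverse with hH
  by_cases hW0 : Wr j G H = 0
  · left
    have h1 := Wr_coeff_zero j G H
    rw [hW0, coeff_zero] at h1
    have h2 : G.coeff 0 = ((g.coeff 0 : ℤ) : L) := by rw [hG, red, coeff_map]; rfl
    have h3 : H.coeff 0 = ((g.leadingCoeff : ℤ) : L) := by
      rw [hH, red, coeff_map, coeff_zero_reverse]; rfl
    have h4 : (j : L) = 0 := by
      rcases mul_eq_zero.mp h1.symm with h5 | h5
      · rcases mul_eq_zero.mp h5 with h6 | h6
        · exact h6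
        · exfalso
          rw [h2] at h6
          rcases hg0 with h7 | h7
          · rw [h7] at h6; simp at h6
          · rw [h7] at h6; simp at h6
      · exfalso
        rw [h3] at h5
        have h6 : (((n.totient : ℕ) : ℤ) : L) = 0 := by
          rw [← hlc, Int.cast_mul, h5, zero_mul]
        rw [Int.cast_natCast, CharP.cast_eq_zero_iff L p, F.hn,
          Nat.totient_mul ((Nat.coprime_primes F.hp F.hq).mpr F.hpq), Nat.totient_prime F.hp,
          Nat.totient_prime F.hq] at h6
        rcases (F.hp.dvd_mul).mp h6 with h7 | h7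
        · have := Nat.le_of_dvd (by have := F.hp.two_le; omega) h7
          have := F.hp.two_le
          omega
        · exact hpq h7
    exact (CharP.cast_eq_zero_iff L p j).mp h4
  · right
    have hdL : cyclotomic n L ∣ X ^ j * G - C (ε : L) * H := by
      have h1 := Polynomial.map_dvd (Int.castRingHom L) hd
      rw [map_cyclotomic] at h1
      simpa [hG, hH, red, Polynomial.map_sub, Polynomial.map_mul, Polynomial.map_pow] using h1
    have hcyc : cyclotomic n L = cyclotomic q L ^ (p - 1) := by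
      rw [F.hn, mul_comm]
      apply cyclotomic_mul_prime_eq_pow_of_not_dvd
      intro h1
      exact F.hpq ((Nat.prime_dvd_prime_iff_eq F.hp F.hq).mp h1)
    have hbd : ∀ b ∈ primitiveRoots q L, (X - C b) ^ (rootMultiplicity b G + (p - 2)) ∣
        Wr j G H := by
      intro b hb
      have hb1 : IsPrimitiveRoot b q := isPrimitiveRoot_of_mem_primitiveRoots hb
      have h1 : (X - C b) ∣ cyclotomic q L := by
        rw [dvd_iff_isRoot]
        exact hb1.isRoot_cyclotomic F.hq.pos
      have h2 : (X - C b) ^ (p - 1) ∣ X ^ j * G - C (ε : L) * H := by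
        refine dvd_trans ?_ hdL
        rw [hcyc]
        exact pow_dvd_pow_of_dvd h1 _
      have h3 := hW L G H (ε : L) b j (rootMultiplicity b G) (p - 1) (by
        rcases hε with h | h
        · rw [h]; simp
        · rw [h]; simp) h2 (pow_rootMultiplicity_dvd G b)
      have h4 : rootMultiplicity b G + (p - 1) - 1 = rootMultiplicity b G + (p - 2) := by
        have := F.hp.two_le
        omega
      rw [h4] at h3
      exact h3
    have h5 := sum_le_of_dvd (primitiveRoots q L) (fun b => rootMultiplicity b G + (p - 2))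
      (Wr j G H) hW0 hbd
    rw [Finset.sum_add_distrib, Finset.sum_const, ha.card_primitiveRoots,
      Nat.totient_prime F.hq, smul_eq_mul] at h5
    have h6 := natDegree_Wr_le j G H g.natDegree (red_natDegree_le L g)
      ((red_natDegree_le L g.reverse).trans (reverse_natDegree_le g))
    rw [mul_comm (p - 2)]
    omega

theorem sum_mult_le (hS : SumStmt) (F : Fac n p q g h) (L : Type) [Field L] [CharP L p] (a : L)
    (ha : IsPrimitiveRoot a q) :
    ∑ b ∈ primitiveRoots q L, rootMultiplicity b (red L g) ≤ g.natDegree := by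
  have h0 := (hS n p q g h F.toFg F.hp F.hn L a ha).1
  refine (sum_le_of_dvd _ _ (red L g) h0 fun b _ => pow_rootMultiplicity_dvd _ _).trans
    (red_natDegree_le L g)

theorem sum_mult_add (hS : SumStmt) (F : Fac n p q g h) (L : Type) [Field L] [CharP L p] (a : L)
    (ha : IsPrimitiveRoot a q) :
    ∑ b ∈ primitiveRoots q L, rootMultiplicity b (red L g) +
      ∑ b ∈ primitiveRoots q L, rootMultiplicity b (red L h) = (p - 2) * (q - 1) := by
  rw [← Finset.sum_add_distrib]
  rw [Finset.sum_congr rfl (g := fun _ => p - 2)]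
  · rw [Finset.sum_const, ha.card_primitiveRoots, Nat.totient_prime F.hq, smul_eq_mul, mul_comm]
  · intro b hb
    exact (hS n p q g h F.toFg F.hp F.hn L b (isPrimitiveRoot_of_mem_primitiveRoots hb)).2

end

end H64

open H64 in
theorem bnd (hW : WmuStmt) (hS : SumStmt) (hB : BasStmt) : BndStmt := by
  intro n p q g h F h5 hpq ε j j' hε hj hd hd'
  classical
  have hpf : Fact p.Prime := ⟨F.hp⟩
  let L := AlgebraicClosure (ZMod p)
  have hqL : NeZero ((q : ℕ) : L) := by
    constructor
    intro h1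
    rw [CharP.cast_eq_zero_iff L p] at h1
    exact F.hpq ((Nat.prime_dvd_prime_iff_eq F.hp F.hq).mp h1)
  have hqn : NeZero q := ⟨F.hq.ne_zero⟩
  obtain ⟨a, ha⟩ := HasEnoughRootsOfUnity.exists_primitiveRoot L q
  have hd'' : cyclotomic n ℤ ∣ X ^ j' * h - C (-ε) * h.reverse := by
    have e : X ^ j' * h - C (-ε) * h.reverse = X ^ j' * h + C ε * h.reverse := by
      rw [C_neg]; ring
    rw [e]; exact hd'
  have hε' : -ε = 1 ∨ -ε = -1 := by
    rcases hε with h | h
    · right; rw [h]
    · left; rw [h]; rfl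
  obtain ⟨-, -, -, hdeg⟩ := hB n g h F.toFg
  rw [F.hn, Nat.totient_mul ((Nat.coprime_primes F.hp F.hq).mpr F.hpq), Nat.totient_prime F.hp,
    Nat.totient_prime F.hq] at hdeg
  have hA := one_factor hW hB F hpq L a ha ε hε j hd
  have hA' := one_factor hW hB F.swap hpq L a ha (-ε) hε' j' hd''
  have hB1 := sum_mult_le hS F L a ha
  have hB2 := sum_mult_le hS F.swap L a ha
  have hC := sum_mult_add hS F L a ha
  have hnot : ¬ (p ∣ j ∧ p ∣ j') := by
    rintro ⟨h1, h2⟩
    have h3 : p ∣ j + j' := dvd_add h1 h2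
    have h4 : p ∣ n := ⟨q, F.hn⟩
    have h5 : p ∣ (j + j') % n := (Nat.dvd_mod_iff h4).mpr h3
    rw [hj] at h5
    exact F.hp.one_lt.ne' (Nat.dvd_one.mp h5)
  obtain ⟨p', rfl⟩ : ∃ p', p = p' + 2 := ⟨p - 2, by omega⟩
  obtain ⟨q', rfl⟩ : ∃ q', q = q' + 1 := ⟨q - 1, by have := F.hq.two_le; omega⟩
  have hq1 : 1 ≤ q' := by have := F.hq.two_le; omega
  have e1 : p' + 2 - 2 = p' := by omega
  have e2 : q' + 1 - 1 = q' := by omega
  have e3 : p' + 2 - 1 = p' + 1 := by omega
  rw [e1, e2] at hA hA' hC
  rw [e2, e3] at hdeg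
  have e4 : (p' + 1) * q' = p' * q' + q' := by ring
  rw [e4] at hdeg
  have e5 : 3 * q' ≤ p' * q' := Nat.mul_le_mul_right _ (by omega)
  rcases hA with h1 | h1
  · rcases hA' with h2 | h2
    · exact absurd ⟨h1, h2⟩ hnot
    · left
      refine ⟨h1, ?_⟩
      omega
  · rcases hA' with h2 | h2
    · right
      refine ⟨h2, ?_⟩
      omega
    · exfalso
      omega

end Pool.Agent.CYD
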