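import Pool.Agent.Helper85_CYD.StG
import Pool.Agent.Helper85_CYD.St1

/-! # CYD, module FIN: the contradiction for `q ≥ 5` -/

set_option autoImplicit false

open Polynomial IsLocalRing

namespace Pool.Agent.CYD

namespace H64

variable {n p q : ℕ} {g h : ℤ[X]}

theorem prim_mul {K : Type} [Field K] {p q : ℕ} (hpq : q.Coprime p) {c w : K}
    (hc : IsPrimitiveRoot c q) (hw : IsPrimitiveRoot w p) : IsPrimitiveRoot (c * w) (q * p) := by
  rw [hc.eq_orderOf, hw.eq_orderOf] at hpq ⊢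
  rw [← (Commute.all c w).orderOf_mul_eq_mul_orderOf_of_coprime hpq]
  exact IsPrimitiveRoot.orderOf _

/-- Case `q ∣ p - 1`. -/
theorem case_dvd (hB : BasStmt) (F : Fac n p q g h) (ε : ℤ) (j : ℕ)
    (hε : ε = 1 ∨ ε = -1) (hd : cyclotomic n ℤ ∣ X ^ j * g - C ε * g.reverse) (hpj : p ∣ j)
    (hdeg : g.natDegree + 4 ≤ 2 * q) (hq : q ∣ p - 1) : False := by
  classical
  obtain ⟨hg0, hlc2, -, -⟩ := hB n g h F.toFg
  have hp0 : p ≠ 0 := F.hp.ne_zero
  have hq0 : q ≠ 0 := F.hq.ne_zero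
  have hc : IsPrimitiveRoot (Complex.exp (2 * Real.pi * Complex.I / q)) q :=
    Complex.isPrimitiveRoot_exp q hq0
  have hw : IsPrimitiveRoot (Complex.exp (2 * Real.pi * Complex.I / p)) p :=
    Complex.isPrimitiveRoot_exp p hp0
  set c : ℂ := Complex.exp (2 * Real.pi * Complex.I / q)
  have hc0 : c ≠ 0 := hc.ne_zero hq0
  -- the polynomial
  let R : ℂ[X] := red ℂ g.reverse - C ((ε : ℂ) * c ^ j) * red ℂ g
  have hRdeg : R.natDegree ≤ g.natDegree := by
    refine (natDegree_sub_le _ _).trans (max_le ?_ ?_)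
    · exact natDegree_map_le.trans (reverse_natDegree_le g)
    · exact (natDegree_C_mul_le _ _).trans natDegree_map_le
  have hR0 : R ≠ 0 := by
    intro h1
    have h2 : R.coeff 0 = ((g.leadingCoeff : ℤ) : ℂ) - (ε : ℂ) * c ^ j * ((g.coeff 0 : ℤ) : ℂ) := by
      change (red ℂ g.reverse - C ((ε : ℂ) * c ^ j) * red ℂ g).coeff 0 = _
      rw [coeff_sub, coeff_C_mul, red, red, coeff_map, coeff_map, coeff_zero_reverse]
      rfl
    rw [h1, coeff_zero] at h2
    have h3 : ((g.leadingCoeff : ℤ) : ℂ) = (ε : ℂ) * c ^ j * ((g.coeff 0 : ℤ) : ℂ) :=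
      (sub_eq_zero.mp h2.symm)
    have h4 := congrArg (fun z : ℂ => ‖z‖) h3
    have hcn : ‖c‖ = 1 := hc.norm'_eq_one hq0
    have e1 : ‖(ε : ℂ)‖ = 1 := by
      rcases hε with h | h
      · rw [h]; simp
      · rw [h]; simp
    have e2 : ‖((g.coeff 0 : ℤ) : ℂ)‖ = 1 := by
      rcases hg0 with h | h
      · rw [h]; simp
      · rw [h]; simp
    simp only [norm_mul, norm_pow, hcn, e1, e2, one_pow, mul_one] at h4
    rw [Complex.norm_intCast] at h4
    have h5 : (2 : ℝ) ≤ |((g.leadingCoeff : ℤ) : ℝ)| := by exact_mod_cast hlc2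
    rw [h4] at h5
    norm_num at h5
  have hcop : q.Coprime p := (Nat.coprime_primes F.hq F.hp).mpr F.hpq.symm
  have hroot : ∀ w' ∈ primitiveRoots p ℂ, c * w' ∈ R.roots.toFinset := by
    intro w' hw'
    have hw1 : IsPrimitiveRoot w' p := isPrimitiveRoot_of_mem_primitiveRoots hw'
    have hz : IsPrimitiveRoot (c * w') n := by
      rw [F.hn, mul_comm p q]
      exact prim_mul hcop hc hw1
    rw [Multiset.mem_toFinset, mem_roots hR0, IsRoot.def]
    have h1 : eval (c * w') (red ℂ (X ^ j * g - C ε * g.reverse)) = 0 := by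
      have h2 : cyclotomic n ℂ ∣ red ℂ (X ^ j * g - C ε * g.reverse) := by
        have h3 := Polynomial.map_dvd (Int.castRingHom ℂ) hd
        rw [map_cyclotomic] at h3
        exact h3
      have h4 : eval (c * w') (cyclotomic n ℂ) = 0 :=
        hz.isRoot_cyclotomic (by rw [F.hn]; exact Nat.mul_pos F.hp.pos F.hq.pos)
      obtain ⟨v, hv⟩ := h2
      rw [hv, eval_mul, h4, zero_mul]
    have h2 : red ℂ (X ^ j * g - C ε * g.reverse) =
        X ^ j * red ℂ g - C (ε : ℂ) * red ℂ g.reverse := by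
      simp [red, Polynomial.map_sub, Polynomial.map_mul, Polynomial.map_pow]
    rw [h2, eval_sub, eval_mul, eval_mul, eval_pow, eval_X, eval_C] at h1
    have h3 : (c * w') ^ j = c ^ j := by
      obtain ⟨k, rfl⟩ := hpj
      rw [mul_pow, pow_mul w' p k, hw1.pow_eq_one, one_pow, mul_one]
    rw [h3] at h1
    have hε2 : (ε : ℂ) * (ε : ℂ) = 1 := by
      rcases hε with h | h
      · rw [h]; simp
      · rw [h]; simp
    change eval (c * w') (red ℂ g.reverse - C ((ε : ℂ) * c ^ j) * red ℂ g) = 0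
    rw [eval_sub, eval_mul, eval_C]
    linear_combination (-(ε : ℂ)) * h1 - (eval (c * w') (red ℂ g.reverse)) * (hε2)
  have hcard : p - 1 ≤ R.roots.toFinset.card := by
    have h1 : ((primitiveRoots p ℂ).image fun w' => c * w') ⊆ R.roots.toFinset := by
      intro x hx
      obtain ⟨w', hw', rfl⟩ := Finset.mem_image.mp hx
      exact hroot w' hw'
    have h2 := Finset.card_le_card h1
    rw [Finset.card_image_of_injective _ (mul_right_injective₀ hc0), hw.card_primitiveRoots,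
      Nat.totient_prime F.hp] at h2
    exact h2
  have h6 : R.roots.toFinset.card ≤ R.natDegree :=
    (Multiset.toFinset_card_le _).trans (card_roots' R)
  -- `p - 1` is even, `q` is odd
  obtain ⟨t, ht⟩ := hq
  have h7 : t ≠ 1 := by
    rintro rfl
    have o1 : Odd p := F.hp.odd_of_ne_two F.hp2
    have o2 : Odd q := F.hq.odd_of_ne_two F.hq2
    obtain ⟨a, ha⟩ := o1
    obtain ⟨b, hb⟩ := o2
    omega
  have h8 : t ≠ 0 := by
    rintro rfl
    have := F.hp.two_le
    omega
  have h9 : q * 2 ≤ q * t := Nat.mul_le_mul_left _ (by omega)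
  omega

/-- Case `p ∣ j` and `q ∣ j`. -/
theorem case_both (hB : BasStmt) (F : Fac n p q g h) (ε : ℤ) (j : ℕ)
    (hε : ε = 1 ∨ ε = -1) (hd : cyclotomic n ℤ ∣ X ^ j * g - C ε * g.reverse) (hpj : p ∣ j)
    (hqj : q ∣ j) : False := by
  obtain ⟨hg0, hlc2, -, hdeg⟩ := hB n g h F.toFg
  have hnj : n ∣ j := by
    rw [F.hn]
    exact Nat.Coprime.mul_dvd_of_dvd_of_dvd ((Nat.coprime_primes F.hp F.hq).mpr F.hpq) hpj hqj
  have h1 : cyclotomic n ℤ ∣ X ^ j - 1 := by
    obtain ⟨k, rfl⟩ := hnj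
    refine (cyclotomic.dvd_X_pow_sub_one n ℤ).trans ?_
    rw [pow_mul]
    exact sub_one_dvd_pow_sub_one _ _
  have h2 : cyclotomic n ℤ ∣ g - C ε * g.reverse := by
    have e : g - C ε * g.reverse = (X ^ j * g - C ε * g.reverse) - (X ^ j - 1) * g := by ring
    rw [e]
    exact dvd_sub hd (Dvd.dvd.mul_right h1 g)
  have h3 : g - C ε * g.reverse = 0 := by
    by_contra hne
    have h4 := natDegree_le_of_dvd h2 hne
    rw [natDegree_cyclotomic] at h4
    have h5 : (g - C ε * g.reverse).natDegree ≤ g.natDegree := by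
      refine (natDegree_sub_le _ _).trans (max_le le_rfl ?_)
      exact (natDegree_C_mul_le _ _).trans (reverse_natDegree_le g)
    omega
  have h4 := congrArg (fun f : ℤ[X] => f.coeff 0) h3
  simp only [coeff_sub, coeff_C_mul, coeff_zero_reverse, coeff_zero] at h4
  have h5 : |g.leadingCoeff| = 1 := by
    rcases hε with h | h <;> rcases hg0 with h' | h' <;> rw [h, h'] at h4
    · have : g.leadingCoeff = 1 := by omega
      rw [this]; rfl
    · have : g.leadingCoeff = -1 := by omega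
      rw [this]; rfl
    · have : g.leadingCoeff = -1 := by omega
      rw [this]; rfl
    · have : g.leadingCoeff = 1 := by omega
      rw [this]; rfl
  rw [h5] at hlc2
  norm_num at hlc2

theorem half (hBnd : BndStmt) (hB : BasStmt) (F : Fac n p q g h) (h5 : 5 ≤ q) (hqp : q < p)
    (ε : ℤ) (j j' : ℕ) (hε : ε = 1 ∨ ε = -1) (hj : (j + j') % n = 1)
    (hd : cyclotomic n ℤ ∣ X ^ j * g - C ε * g.reverse)
    (hd' : cyclotomic n ℤ ∣ X ^ j' * h + C ε * h.reverse)
    (h1 : p ∣ j ∧ g.natDegree + 4 ≤ 2 * q) : False := by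
  obtain ⟨hpj, hdg⟩ := h1
  by_cases hq : q ∣ p - 1
  · exact case_dvd hB F ε j hε hd hpj hdg hq
  · rcases hBnd n q p g h F.symm h5 hq ε j j' hε hj hd hd' with ⟨h2, h3⟩ | ⟨h2, h3⟩
    · exact case_both hB F ε j hε hd hpj h2
    · obtain ⟨-, -, -, hdeg⟩ := hB n g h F.toFg
      rw [F.hn, Nat.totient_mul ((Nat.coprime_primes F.hp F.hq).mpr F.hpq),
        Nat.totient_prime F.hp, Nat.totient_prime F.hq] at hdeg
      obtain ⟨a, rfl⟩ : ∃ a, q = a + 5 := ⟨q - 5, by omega⟩
      obtain ⟨b, rfl⟩ : ∃ b, p = a + 6 + b := ⟨p - (a + 6), by omega⟩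
      have e1 : a + 6 + b - 1 = a + 5 + b := by omega
      have e2 : a + 5 - 1 = a + 4 := by omega
      rw [e1, e2] at hdeg
      have e3 : (a + 5 + b) * (a + 4) = a * a + 9 * a + 20 + b * a + 4 * b := by ring
      rw [e3] at hdeg
      have e4 : 0 ≤ a * a := Nat.zero_le _
      have e5 : 0 ≤ b * a := Nat.zero_le _
      have hodd : Odd (a + 6 + b) := F.hp.odd_of_ne_two F.hp2
      have hodd' : Odd (a + 5) := F.hq.odd_of_ne_two F.hq2
      omega

end H64

open H64 in
theorem fin (hBnd : BndStmt) (hB : BasStmt) : FinStmt := by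
  intro n p q g h F h5 hqp ε j j' hε hj hd hd'
  have hpq : ¬ p ∣ q - 1 := by
    intro h1
    have := Nat.le_of_dvd (by omega) h1
    omega
  have hd'' : cyclotomic n ℤ ∣ X ^ j' * h - C (-ε) * h.reverse := by
    have e : X ^ j' * h - C (-ε) * h.reverse = X ^ j' * h + C ε * h.reverse := by
      rw [C_neg]; ring
    rw [e]; exact hd'
  have hd3 : cyclotomic n ℤ ∣ X ^ j * g + C (-ε) * g.reverse := by
    have e : X ^ j * g + C (-ε) * g.reverse = X ^ j * g - C ε * g.reverse := by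
      rw [C_neg]; ring
    rw [e]; exact hd
  have hε' : -ε = 1 ∨ -ε = -1 := by
    rcases hε with h | h
    · right; rw [h]
    · left; rw [h]; rfl
  rcases hBnd n p q g h F (by omega) hpq ε j j' hε hj hd hd' with h1 | h1
  · exact half hBnd hB F h5 hqp ε j j' hε hj hd hd' h1
  · exact half hBnd hB F.swap h5 hqp (-ε) j' j hε' (by rw [add_comm]; exact hj) hd'' hd3 h1

end Pool.Agent.CYD
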